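import Pool.Agent.Lib.MP_df705a_gt.Curv

/-!
# Laplacian, gradient product and block metric in coordinates
-/

open scoped ContDiff
open Module

noncomputable section

namespace Pool.Agent.Lib.MP_df705a_gt.Twist

variable {E : Type*} [NormedAddCommGroup E] [NormedSpace ℝ E] [FiniteDimensional ℝ E]

/-- The Laplacian `∑ h^{ij} (∂_i ∂_j u - Γ_{ij}^q ∂_q u)`. -/
def lapC (h : Curv.Coeff E) (u : E → ℝ) (x : E) : ℝ :=
  ∑ i, ∑ j, (h x)⁻¹ i j * Curv.covHess h u x i j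

/-- The scalar product `∑ h^{ij} ∂_i u ∂_j v` of the differentials. -/
def gradC (h : Curv.Coeff E) (u v : E → ℝ) (x : E) : ℝ :=
  ∑ i, ∑ j, (h x)⁻¹ i j * (Curv.pd i u x * Curv.pd j v x)

variable {E₁ : Type*} [NormedAddCommGroup E₁] [NormedSpace ℝ E₁] [FiniteDimensional ℝ E₁]
  {E₂ : Type*} [NormedAddCommGroup E₂] [NormedSpace ℝ E₂] [FiniteDimensional ℝ E₂]

/-- The coefficients of the metric `e^{2α} h + e^{2β} f` on `E₁ × E₂` in the linear coordinates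
of the basis `finBasis ℝ (E₁ × E₂)`. -/
def blockMetric (h : E₁ × E₂ → Matrix (Fin (finrank ℝ E₁)) (Fin (finrank ℝ E₁)) ℝ)
    (f : E₁ × E₂ → Matrix (Fin (finrank ℝ E₂)) (Fin (finrank ℝ E₂)) ℝ) (α β : E₁ × E₂ → ℝ) :
    Curv.Coeff (E₁ × E₂) := fun q i j =>
  Real.exp (α q) ^ 2 * (∑ k, ∑ l, h q k l *
    ((finBasis ℝ E₁).repr (finBasis ℝ (E₁ × E₂) i).1 k *
      (finBasis ℝ E₁).repr (finBasis ℝ (E₁ × E₂) j).1 l)) +
  Real.exp (β q) ^ 2 * (∑ k, ∑ l, f q k l *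
    ((finBasis ℝ E₂).repr (finBasis ℝ (E₁ × E₂) i).2 k *
      (finBasis ℝ E₂).repr (finBasis ℝ (E₁ × E₂) j).2 l))

end Pool.Agent.Lib.MP_df705a_gt.Twist
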