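import Pool.Agent.Lib.MP_df705a_gt.Curv

/-!
# Scalar curvature and volume density of a Riemannian metric, read in the charts of the atlas
-/

open scoped Manifold ContDiff
open Bundle Module

noncomputable section

namespace Pool.Agent.Lib.MP_df705a_gt.Twist

variable {E : Type*} [NormedAddCommGroup E] [NormedSpace ℝ E] [FiniteDimensional ℝ E]
  {H : Type*} [TopologicalSpace H] {I : ModelWithCorners ℝ E H}
  {M : Type*} [TopologicalSpace M] [ChartedSpace H M] [IsManifold I ∞ M]

/-- The coefficients of the Riemannian metric `g` in the preferred chart at `z`, in the linear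
coordinates of the basis `finBasis ℝ E` of the model space. -/
def coeff (g : ContMDiffRiemannianMetric I ∞ E (fun x : M => TangentSpace I x)) (z : M) :
    Curv.Coeff E := fun y i j =>
  g.inner ((extChartAt I z).symm y)
    (mfderiv 𝓘(ℝ, E) I (extChartAt I z).symm y (finBasis ℝ E i))
    (mfderiv 𝓘(ℝ, E) I (extChartAt I z).symm y (finBasis ℝ E j))

/-- The scalar curvature of `g` is positive, at every point of every chart of the atlas. -/
def PosScal (g : ContMDiffRiemannianMetric I ∞ E (fun x : M => TangentSpace I x)) : Prop :=
  ∀ z : M, ∀ y ∈ (extChartAt I z).target, 0 < Curv.scal (coeff g z) y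

/-- The scalar curvature of `g` is nonpositive, at every point of every chart of the atlas. -/
def NonposScal (g : ContMDiffRiemannianMetric I ∞ E (fun x : M => TangentSpace I x)) : Prop :=
  ∀ z : M, ∀ y ∈ (extChartAt I z).target, Curv.scal (coeff g z) y ≤ 0

/-- The metrics `g` and `g'` have the same volume density `√det`, at every point. -/
def SameVolume (g g' : ContMDiffRiemannianMetric I ∞ E (fun x : M => TangentSpace I x)) : Prop :=
  ∀ x : M, (coeff g x (extChartAt I x x)).det = (coeff g' x (extChartAt I x x)).det

end Pool.Agent.Lib.MP_df705a_gt.Twist
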