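import Pool.Agent.Lib.MP_df705a_gt.Mg.G056
import Pool.Agent.Lib.MP_df705a_gt.Mg.G057
import Pool.Agent.Lib.MP_df705a_gt.Twist.StmtDefs

/-!
# The theorem on products
-/

open scoped Manifold ContDiff Topology
open Set Bundle Module Filter

noncomputable section

set_option linter.unusedSectionVars false

namespace Pool.Agent.Lib.MP_df705a_gt.Twist

/-! ### The scalar curvature depends on the germ of the coefficients -/

section germ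

variable {E : Type*} [NormedAddCommGroup E] [NormedSpace ℝ E] [FiniteDimensional ℝ E]
  {h h' : Curv.Coeff E} {x : E}

theorem christoffel_congr (hh : h =ᶠ[𝓝 x] h') (i j k : Fin (finrank ℝ E)) :
    Curv.christoffel h i j k x = Curv.christoffel h' i j k x := by
  have h1 : ∀ a b, (fun y => h y a b) =ᶠ[𝓝 x] fun y => h' y a b := by
    intro a b
    filter_upwards [hh] with y hy
    rw [hy]
  unfold Curv.christoffel Curv.pd
  rw [(h1 j k).fderiv_eq, (h1 i k).fderiv_eq, (h1 i j).fderiv_eq]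

theorem scalC_congr (hh : h =ᶠ[𝓝 x] h') : Curv.scal h x = Curv.scal h' x := by
  have h1 : ∀ i j k, Curv.christoffel h i j k =ᶠ[𝓝 x] Curv.christoffel h' i j k := by
    intro i j k
    filter_upwards [hh.eventuallyEq_nhds] with y hy
    exact christoffel_congr hy i j k
  have h2 : ∀ i j k l, Curv.riemann h i j k l x = Curv.riemann h' i j k l x := by
    intro i j k l
    unfold Curv.riemann Curv.pd
    rw [(h1 j k l).fderiv_eq, (h1 i k l).fderiv_eq, hh.self_of_nhds]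
    simp only [christoffel_congr hh]
  unfold Curv.scal
  rw [hh.self_of_nhds]
  simp only [h2]

end germ

/-! ### Volume densities in other charts -/

section vol

variable {E : Type*} [NormedAddCommGroup E] [NormedSpace ℝ E] [FiniteDimensional ℝ E]
  {H : Type*} [TopologicalSpace H] {I : ModelWithCorners ℝ E H} [I.Boundaryless]
  {M : Type*} [TopologicalSpace M] [ChartedSpace H M] [IsManifold I ∞ M]

theorem coeff_eq (g : ContMDiffRiemannianMetric I ∞ E (fun x : M => TangentSpace I x)) (z : M) :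
    coeff g z = chartMetric (finBasis ℝ E) g z := rfl

theorem coeff_det_law (g : ContMDiffRiemannianMetric I ∞ E (fun x : M => TangentSpace I x))
    {z z' : M} {y : E} (hy : y ∈ dom I z z') :
    (coeff g z' y).det =
      (fderiv ℝ (trans I z z') y).det ^ 2 * (coeff g z (trans I z z' y)).det := by
  rw [coeff_eq, coeff_eq, chartMetric_law I (finBasis ℝ E) g hy, Matrix.det_mul, Matrix.det_mul,
    Matrix.det_transpose, LinearMap.det_toMatrix]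
  change (fderiv ℝ (trans I z z') y).det * _ * (fderiv ℝ (trans I z z') y).det = _
  ring

theorem SameVolume.eq {g g' : ContMDiffRiemannianMetric I ∞ E (fun x : M => TangentSpace I x)}
    (h : SameVolume g g') (z : M) {y : E} (hy : y ∈ (extChartAt I z).target) :
    (coeff g z y).det = (coeff g' z y).det := by
  set p := (extChartAt I z).symm y with hp
  have hd : y ∈ dom I p z := ⟨hy, mem_extChartAt_source p⟩
  rw [coeff_det_law g hd, coeff_det_law g' hd]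
  congr 1
  exact h p

end vol

/-! ### The theorem -/

section thm

variable {E₁ : Type*} [NormedAddCommGroup E₁] [NormedSpace ℝ E₁] [FiniteDimensional ℝ E₁]
  {B : Type*} [TopologicalSpace B] [ChartedSpace E₁ B] [IsManifold 𝓘(ℝ, E₁) ∞ B]
  {E₂ : Type*} [NormedAddCommGroup E₂] [NormedSpace ℝ E₂] [FiniteDimensional ℝ E₂]
  {F : Type*} [TopologicalSpace F] [ChartedSpace E₂ F] [IsManifold 𝓘(ℝ, E₂) ∞ F]

/-- The coefficients of the family of metrics on the first factor, in a product chart. -/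
def hC (gB : F → ContMDiffRiemannianMetric 𝓘(ℝ, E₁) ∞ E₁ (fun x : B => TangentSpace 𝓘(ℝ, E₁) x))
    (z : B × F) (q : E₁ × E₂) : Matrix (Fin (finrank ℝ E₁)) (Fin (finrank ℝ E₁)) ℝ :=
  coeff (gB ((extChartAt 𝓘(ℝ, E₂) z.2).symm q.2)) z.1 q.1

/-- The coefficients of the family of metrics on the second factor, in a product chart. -/
def fC (gF : B → ContMDiffRiemannianMetric 𝓘(ℝ, E₂) ∞ E₂ (fun x : F => TangentSpace 𝓘(ℝ, E₂) x))
    (z : B × F) (q : E₁ × E₂) : Matrix (Fin (finrank ℝ E₂)) (Fin (finrank ℝ E₂)) ℝ :=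
  coeff (gF ((extChartAt 𝓘(ℝ, E₁) z.1).symm q.1)) z.2 q.2

/-- The logarithm of a function on the product, in a product chart. -/
def lC (a : B × F → ℝ) (z : B × F) (q : E₁ × E₂) : ℝ :=
  Real.log (a ((extChartAt 𝓘(ℝ, E₁) z.1).symm q.1, (extChartAt 𝓘(ℝ, E₂) z.2).symm q.2))

theorem lC_trans (a : B × F → ℝ) {z z' : B × F} {q : E₁ × E₂}
    (hq : q ∈ dom (𝓘(ℝ, E₁).prod 𝓘(ℝ, E₂)) z z') :
    lC a z (trans (𝓘(ℝ, E₁).prod 𝓘(ℝ, E₂)) z z' q) = lC a z' q := by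
  rw [dom_prod] at hq
  unfold lC
  rw [trans_prod]
  simp only
  rw [symm_trans 𝓘(ℝ, E₁) hq.1, symm_trans 𝓘(ℝ, E₂) hq.2]

theorem lC_contDiffOn {a : B × F → ℝ}
    (ha : ContMDiff (𝓘(ℝ, E₁).prod 𝓘(ℝ, E₂)) 𝓘(ℝ, ℝ) ∞ a) (ha0 : ∀ p, 0 < a p) (z : B × F) :
    ContDiffOn ℝ ∞ (lC a z : E₁ × E₂ → ℝ)
      ((extChartAt 𝓘(ℝ, E₁) z.1).target ×ˢ (extChartAt 𝓘(ℝ, E₂) z.2).target) := by
  intro q hq
  rw [← prod_target 𝓘(ℝ, E₁) 𝓘(ℝ, E₂) z] at hq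
  have h1 := read_contDiffAt (𝓘(ℝ, E₁).prod 𝓘(ℝ, E₂)) ha hq
  simp only [prod_symm] at h1
  exact (h1.log (ha0 _).ne').contDiffWithinAt

/-- The transformation law of the vector density. -/
theorem Z_law (gB : F → ContMDiffRiemannianMetric 𝓘(ℝ, E₁) ∞ E₁
      (fun x : B => TangentSpace 𝓘(ℝ, E₁) x))
    (gF : B → ContMDiffRiemannianMetric 𝓘(ℝ, E₂) ∞ E₂ (fun x : F => TangentSpace 𝓘(ℝ, E₂) x))
    {a b : B × F → ℝ} (ha : ContMDiff (𝓘(ℝ, E₁).prod 𝓘(ℝ, E₂)) 𝓘(ℝ, ℝ) ∞ a)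
    (ha0 : ∀ p, 0 < a p) (hb : ContMDiff (𝓘(ℝ, E₁).prod 𝓘(ℝ, E₂)) 𝓘(ℝ, ℝ) ∞ b)
    (hb0 : ∀ p, 0 < b p) {z z' : B × F} {q : E₁ × E₂}
    (hq : q ∈ dom (𝓘(ℝ, E₁).prod 𝓘(ℝ, E₂)) z z') :
    |(fderiv ℝ (trans (𝓘(ℝ, E₁).prod 𝓘(ℝ, E₂)) z z') q).det| •
        Zfield (hC gB z) (fC gF z) (lC a z) (lC b z)
          (trans (𝓘(ℝ, E₁).prod 𝓘(ℝ, E₂)) z z' q) =
      fderiv ℝ (trans (𝓘(ℝ, E₁).prod 𝓘(ℝ, E₂)) z z') q
        (Zfield (hC gB z') (fC gF z') (lC a z') (lC b z') q) := by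
  set I := 𝓘(ℝ, E₁).prod 𝓘(ℝ, E₂) with hI
  have hq' : q ∈ dom 𝓘(ℝ, E₁) z.1 z'.1 ×ˢ dom 𝓘(ℝ, E₂) z.2 z'.2 := by
    rw [← dom_prod]
    exact hq
  set D₁ := fderiv ℝ (trans 𝓘(ℝ, E₁) z.1 z'.1) q.1 with hD₁
  set D₂ := fderiv ℝ (trans 𝓘(ℝ, E₂) z.2 z'.2) q.2 with hD₂
  have hD : fderiv ℝ (trans I z z') q = D₁.prodMap D₂ := fderiv_trans_prod _ _ hq
  have hdetD : (fderiv ℝ (trans I z z') q).det = D₁.det * D₂.det := det_trans_prod _ _ hq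
  have hdD₁ : D₁.det ≠ 0 := det_trans_ne_zero _ hq'.1
  have hdD₂ : D₂.det ≠ 0 := det_trans_ne_zero _ hq'.2
  have htr : trans I z z' q = (trans 𝓘(ℝ, E₁) z.1 z'.1 q.1, trans 𝓘(ℝ, E₂) z.2 z'.2 q.2) :=
    trans_prod _ _ z z' q
  -- the coefficients
  have hh : hC gB z' q = (LinearMap.toMatrix (finBasis ℝ E₁) (finBasis ℝ E₁)
      (D₁ : E₁ →ₗ[ℝ] E₁)).transpose * hC gB z (trans I z z' q) *
        LinearMap.toMatrix (finBasis ℝ E₁) (finBasis ℝ E₁) (D₁ : E₁ →ₗ[ℝ] E₁) := by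
    unfold hC
    rw [htr]
    simp only
    rw [symm_trans 𝓘(ℝ, E₂) hq'.2, coeff_eq, coeff_eq]
    exact chartMetric_law 𝓘(ℝ, E₁) (finBasis ℝ E₁) _ hq'.1
  have hf : fC gF z' q = (LinearMap.toMatrix (finBasis ℝ E₂) (finBasis ℝ E₂)
      (D₂ : E₂ →ₗ[ℝ] E₂)).transpose * fC gF z (trans I z z' q) *
        LinearMap.toMatrix (finBasis ℝ E₂) (finBasis ℝ E₂) (D₂ : E₂ →ₗ[ℝ] E₂) := by
    unfold fC
    rw [htr]
    simp only
    rw [symm_trans 𝓘(ℝ, E₁) hq'.1, coeff_eq, coeff_eq]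
    exact chartMetric_law 𝓘(ℝ, E₂) (finBasis ℝ E₂) _ hq'.2
  have hdens : dens (hC gB z') (fC gF z') q =
      |D₁.det * D₂.det| * dens (hC gB z) (fC gF z) (trans I z z' q) := by
    unfold dens
    rw [det_law (finBasis ℝ E₁) hh, det_law (finBasis ℝ E₂) hf, abs_mul]
    ring
  -- the potentials
  have hpot : ∀ pot : (E₁ × E₂ → ℝ) → (E₁ × E₂ → ℝ) → E₁ × E₂ → ℝ,
      (∀ α β p, ∀ α' β' : E₁ × E₂ → ℝ, ∀ p', α p = α' p' → β p = β' p' →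
        pot α β p = pot α' β' p') →
      (∀ z₀ : B × F, ContDiffOn ℝ ∞ (pot (lC a z₀) (lC b z₀))
        ((extChartAt 𝓘(ℝ, E₁) z₀.1).target ×ˢ (extChartAt 𝓘(ℝ, E₂) z₀.2).target)) →
      fderiv ℝ (pot (lC a z') (lC b z')) q =
        (fderiv ℝ (pot (lC a z) (lC b z)) (trans I z z' q)).comp (D₁.prodMap D₂) := by
    intro pot h1 h2
    have h3 : pot (lC a z') (lC b z') =ᶠ[𝓝 q] pot (lC a z) (lC b z) ∘ trans I z z' := by
      filter_upwards [(dom_open I z z').mem_nhds hq] with p hp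
      exact h1 _ _ _ _ _ _ (lC_trans a hp).symm (lC_trans b hp).symm
    have h4 : DifferentiableAt ℝ (pot (lC a z) (lC b z)) (trans I z z' q) := by
      have h5 : trans I z z' q ∈ (extChartAt 𝓘(ℝ, E₁) z.1).target ×ˢ
          (extChartAt 𝓘(ℝ, E₂) z.2).target := by
        rw [← prod_target]
        exact trans_mem_target I hq
      have h6 : IsOpen ((extChartAt 𝓘(ℝ, E₁) z.1).target ×ˢ
          (extChartAt 𝓘(ℝ, E₂) z.2).target) :=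
        (isOpen_extChartAt_target z.1).prod (isOpen_extChartAt_target z.2)
      exact ((h2 z).contDiffAt (h6.mem_nhds h5)).differentiableAt (by norm_num)
    have h7 := h4.hasFDerivAt.comp q (trans_differentiableAt I hq).hasFDerivAt
    rw [h3.fderiv_eq, h7.fderiv, hD]
  have hla := lC_contDiffOn (E₁ := E₁) (E₂ := E₂) ha ha0
  have hlb := lC_contDiffOn (E₁ := E₁) (E₂ := E₂) hb hb0
  have hp₁ := hpot pot₁ (by
      intro α β p α' β' p' h1 h2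
      unfold pot₁
      rw [h1, h2]) (fun z₀ => (contDiffOn_const.mul (hla z₀)).add (contDiffOn_const.mul (hlb z₀)))
  have hp₂ := hpot pot₂ (by
      intro α β p α' β' p' h1 h2
      unfold pot₂
      rw [h1, h2]) (fun z₀ => (contDiffOn_const.mul (hlb z₀)).add (contDiffOn_const.mul (hla z₀)))
  have hin₁ : (D₁.prodMap D₂).comp (ContinuousLinearMap.inl ℝ E₁ E₂) =
      (ContinuousLinearMap.inl ℝ E₁ E₂).comp D₁ := by
    ext v <;> simp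
  have hin₂ : (D₁.prodMap D₂).comp (ContinuousLinearMap.inr ℝ E₁ E₂) =
      (ContinuousLinearMap.inr ℝ E₁ E₂).comp D₂ := by
    ext v <;> simp
  have hg₁ : D₁ (gradM (finBasis ℝ E₁) (hC gB z' q)
      ((fderiv ℝ (pot₁ (lC a z') (lC b z')) q).comp (ContinuousLinearMap.inl ℝ E₁ E₂))) =
      gradM (finBasis ℝ E₁) (hC gB z (trans I z z' q))
        ((fderiv ℝ (pot₁ (lC a z) (lC b z)) (trans I z z' q)).comp
          (ContinuousLinearMap.inl ℝ E₁ E₂)) := by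
    rw [hp₁, ContinuousLinearMap.comp_assoc, hin₁, ← ContinuousLinearMap.comp_assoc]
    exact gradM_law (finBasis ℝ E₁) hdD₁ hh _
  have hg₂ : D₂ (gradM (finBasis ℝ E₂) (fC gF z' q)
      ((fderiv ℝ (pot₂ (lC a z') (lC b z')) q).comp (ContinuousLinearMap.inr ℝ E₁ E₂))) =
      gradM (finBasis ℝ E₂) (fC gF z (trans I z z' q))
        ((fderiv ℝ (pot₂ (lC a z) (lC b z)) (trans I z z' q)).comp
          (ContinuousLinearMap.inr ℝ E₁ E₂)) := by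
    rw [hp₂, ContinuousLinearMap.comp_assoc, hin₂, ← ContinuousLinearMap.comp_assoc]
    exact gradM_law (finBasis ℝ E₂) hdD₂ hf _
  rw [hdetD, hD]
  unfold Zfield
  have hpm : ∀ u v, (D₁.prodMap D₂) (u, v) = (D₁ u, D₂ v) := fun _ _ => rfl
  rw [hpm, Prod.smul_mk, map_smul, map_smul, hg₁, hg₂, hdens, ← lC_trans a hq, ← lC_trans b hq,
    smul_smul, smul_smul]
  congr 2 <;> ring

/-- The scalar product of `g` at `p`, as a bilinear form on the model space. -/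
def gE {E : Type*} [NormedAddCommGroup E] [NormedSpace ℝ E]
    {H : Type*} [TopologicalSpace H] {I : ModelWithCorners ℝ E H}
    {M : Type*} [TopologicalSpace M] [ChartedSpace H M] [IsManifold I ∞ M]
    (g : ContMDiffRiemannianMetric I ∞ E (fun x : M => TangentSpace I x)) (p : M) :
    E →L[ℝ] E →L[ℝ] ℝ := g.inner p

theorem mform_prod
    (g : ContMDiffRiemannianMetric (𝓘(ℝ, E₁).prod 𝓘(ℝ, E₂)) ∞ (E₁ × E₂)
      (fun p : B × F => TangentSpace (𝓘(ℝ, E₁).prod 𝓘(ℝ, E₂)) p))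
    (gB : F → ContMDiffRiemannianMetric 𝓘(ℝ, E₁) ∞ E₁ (fun x : B => TangentSpace 𝓘(ℝ, E₁) x))
    (gF : B → ContMDiffRiemannianMetric 𝓘(ℝ, E₂) ∞ E₂ (fun x : F => TangentSpace 𝓘(ℝ, E₂) x))
    (a b : B × F → ℝ)
    (hg : ∀ (x : B) (y : F) (u u' : TangentSpace 𝓘(ℝ, E₁) x) (v v' : TangentSpace 𝓘(ℝ, E₂) y),
      g.inner (x, y) (u, v) (u', v') =
        a (x, y) ^ 2 * (gB y).inner x u u' + b (x, y) ^ 2 * (gF x).inner y v v')
    (z : B × F) {q : E₁ × E₂} (hq : q ∈ (extChartAt (𝓘(ℝ, E₁).prod 𝓘(ℝ, E₂)) z).target)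
    (v w : E₁ × E₂) :
    mform (𝓘(ℝ, E₁).prod 𝓘(ℝ, E₂)) g z q v w =
      a ((extChartAt 𝓘(ℝ, E₁) z.1).symm q.1, (extChartAt 𝓘(ℝ, E₂) z.2).symm q.2) ^ 2 *
        mform 𝓘(ℝ, E₁) (gB ((extChartAt 𝓘(ℝ, E₂) z.2).symm q.2)) z.1 q.1 v.1 w.1 +
      b ((extChartAt 𝓘(ℝ, E₁) z.1).symm q.1, (extChartAt 𝓘(ℝ, E₂) z.2).symm q.2) ^ 2 *
        mform 𝓘(ℝ, E₂) (gF ((extChartAt 𝓘(ℝ, E₁) z.1).symm q.1)) z.2 q.2 v.2 w.2 := by
  rw [mform_apply, mfderiv_prod_symm 𝓘(ℝ, E₁) 𝓘(ℝ, E₂) z hq v,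
    mfderiv_prod_symm 𝓘(ℝ, E₁) 𝓘(ℝ, E₂) z hq w]
  have h1 := hg ((extChartAt 𝓘(ℝ, E₁) z.1).symm q.1) ((extChartAt 𝓘(ℝ, E₂) z.2).symm q.2)
    (mfderiv 𝓘(ℝ, E₁) 𝓘(ℝ, E₁) (extChartAt 𝓘(ℝ, E₁) z.1).symm q.1 v.1)
    (mfderiv 𝓘(ℝ, E₁) 𝓘(ℝ, E₁) (extChartAt 𝓘(ℝ, E₁) z.1).symm q.1 w.1)
    (mfderiv 𝓘(ℝ, E₂) 𝓘(ℝ, E₂) (extChartAt 𝓘(ℝ, E₂) z.2).symm q.2 v.2)
    (mfderiv 𝓘(ℝ, E₂) 𝓘(ℝ, E₂) (extChartAt 𝓘(ℝ, E₂) z.2).symm q.2 w.2)
  refine Eq.trans ?_ h1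
  have h2 : ∀ (p p' : B × F) (V W : E₁ × E₂), p = p' → gE g p V W = gE g p' V W := by
    intro p p' V W h
    rw [h]
  exact h2 _ _ _ _ (prod_symm 𝓘(ℝ, E₁) 𝓘(ℝ, E₂) z q)

/-- The main theorem. -/
theorem not_posScal [CompactSpace B] [T2Space B] [Nonempty B] [CompactSpace F] [T2Space F]
    [Nonempty F] (hd₁ : 0 < finrank ℝ E₁) (hd₂ : 0 < finrank ℝ E₂)
    (g : ContMDiffRiemannianMetric (𝓘(ℝ, E₁).prod 𝓘(ℝ, E₂)) ∞ (E₁ × E₂)
      (fun p : B × F => TangentSpace (𝓘(ℝ, E₁).prod 𝓘(ℝ, E₂)) p))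
    (gB : F → ContMDiffRiemannianMetric 𝓘(ℝ, E₁) ∞ E₁ (fun x : B => TangentSpace 𝓘(ℝ, E₁) x))
    (gF : B → ContMDiffRiemannianMetric 𝓘(ℝ, E₂) ∞ E₂ (fun x : F => TangentSpace 𝓘(ℝ, E₂) x))
    (a b : B × F → ℝ) (ha : ContMDiff (𝓘(ℝ, E₁).prod 𝓘(ℝ, E₂)) 𝓘(ℝ, ℝ) ∞ a)
    (ha0 : ∀ p, 0 < a p) (hb : ContMDiff (𝓘(ℝ, E₁).prod 𝓘(ℝ, E₂)) 𝓘(ℝ, ℝ) ∞ b)
    (hb0 : ∀ p, 0 < b p)
    (hg : ∀ (x : B) (y : F) (u u' : TangentSpace 𝓘(ℝ, E₁) x) (v v' : TangentSpace 𝓘(ℝ, E₂) y),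
      g.inner (x, y) (u, v) (u', v') =
        a (x, y) ^ 2 * (gB y).inner x u u' + b (x, y) ^ 2 * (gF x).inner y v v')
    (hvB : ∀ y y', SameVolume (gB y) (gB y')) (hvF : ∀ x x', SameVolume (gF x) (gF x'))
    (hsB : ∀ y, NonposScal (gB y)) (hsF : ∀ x, NonposScal (gF x)) : ¬ PosScal g := by
  intro hpos
  have key := mform_prod g gB gF a b hg
  have hopen : ∀ z : B × F, IsOpen ((extChartAt 𝓘(ℝ, E₁) z.1).target ×ˢ
      (extChartAt 𝓘(ℝ, E₂) z.2).target) := fun z =>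
    (isOpen_extChartAt_target z.1).prod (isOpen_extChartAt_target z.2)
  have htgt : ∀ z : B × F, (extChartAt (𝓘(ℝ, E₁).prod 𝓘(ℝ, E₂)) z).target =
      (extChartAt 𝓘(ℝ, E₁) z.1).target ×ˢ (extChartAt 𝓘(ℝ, E₂) z.2).target :=
    prod_target 𝓘(ℝ, E₁) 𝓘(ℝ, E₂)
  have hla := lC_contDiffOn (E₁ := E₁) (E₂ := E₂) ha ha0
  have hlb := lC_contDiffOn (E₁ := E₁) (E₂ := E₂) hb hb0
  have hread : ∀ {c : B × F → ℝ}, ContMDiff (𝓘(ℝ, E₁).prod 𝓘(ℝ, E₂)) 𝓘(ℝ, ℝ) ∞ c →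
      ∀ z : B × F, ContDiffOn ℝ ∞ (fun q : E₁ × E₂ =>
        c ((extChartAt 𝓘(ℝ, E₁) z.1).symm q.1, (extChartAt 𝓘(ℝ, E₂) z.2).symm q.2))
        ((extChartAt 𝓘(ℝ, E₁) z.1).target ×ˢ (extChartAt 𝓘(ℝ, E₂) z.2).target) := by
    intro c hc z q hq
    rw [← htgt z] at hq
    have h1 := read_contDiffAt (𝓘(ℝ, E₁).prod 𝓘(ℝ, E₂)) hc hq
    simp only [prod_symm] at h1
    exact h1.contDiffWithinAt
  have hhC : ∀ z i j, ContDiffOn ℝ ∞ (fun q : E₁ × E₂ => hC gB z q i j)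
      ((extChartAt 𝓘(ℝ, E₁) z.1).target ×ˢ (extChartAt 𝓘(ℝ, E₂) z.2).target) := by
    intro z i j
    have h1 : ContDiffOn ℝ ∞ (fun q : E₁ × E₂ => mform (𝓘(ℝ, E₁).prod 𝓘(ℝ, E₂)) g z q
        (finBasis ℝ E₁ i, 0) (finBasis ℝ E₁ j, 0))
        ((extChartAt 𝓘(ℝ, E₁) z.1).target ×ˢ (extChartAt 𝓘(ℝ, E₂) z.2).target) := by
      rw [← htgt z]
      exact inner_smooth (𝓘(ℝ, E₁).prod 𝓘(ℝ, E₂)) g z _ _
    have h2 := h1.div ((hread ha z).pow 2) (fun q _ => (pow_pos (ha0 _) 2).ne')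
    refine h2.congr ?_
    intro q hq
    rw [← htgt z] at hq
    rw [Pi.div_apply, key z hq]
    have h3 : a ((extChartAt 𝓘(ℝ, E₁) z.1).symm q.1, (extChartAt 𝓘(ℝ, E₂) z.2).symm q.2) ^ 2 ≠ 0 :=
      (pow_pos (ha0 _) 2).ne'
    simp only [map_zero, mul_zero, add_zero]
    rw [mul_div_cancel_left₀ _ h3]
    rfl
  have hfC : ∀ z i j, ContDiffOn ℝ ∞ (fun q : E₁ × E₂ => fC gF z q i j)
      ((extChartAt 𝓘(ℝ, E₁) z.1).target ×ˢ (extChartAt 𝓘(ℝ, E₂) z.2).target) := by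
    intro z i j
    have h1 : ContDiffOn ℝ ∞ (fun q : E₁ × E₂ => mform (𝓘(ℝ, E₁).prod 𝓘(ℝ, E₂)) g z q
        (0, finBasis ℝ E₂ i) (0, finBasis ℝ E₂ j))
        ((extChartAt 𝓘(ℝ, E₁) z.1).target ×ˢ (extChartAt 𝓘(ℝ, E₂) z.2).target) := by
      rw [← htgt z]
      exact inner_smooth (𝓘(ℝ, E₁).prod 𝓘(ℝ, E₂)) g z _ _
    have h2 := h1.div ((hread hb z).pow 2) (fun q _ => (pow_pos (hb0 _) 2).ne')
    refine h2.congr ?_
    intro q hq
    rw [← htgt z] at hq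
    rw [Pi.div_apply, key z hq]
    have h3 : b ((extChartAt 𝓘(ℝ, E₁) z.1).symm q.1, (extChartAt 𝓘(ℝ, E₂) z.2).symm q.2) ^ 2 ≠ 0 :=
      (pow_pos (hb0 _) 2).ne'
    simp only [map_zero, mul_zero, zero_add]
    rw [mul_div_cancel_left₀ _ h3]
    rfl
  have hhP : ∀ z : B × F, ∀ q ∈ (extChartAt 𝓘(ℝ, E₁) z.1).target ×ˢ
      (extChartAt 𝓘(ℝ, E₂) z.2).target, (hC gB z q).PosDef := fun z q hq =>
    chartMetric_posDef 𝓘(ℝ, E₁) (finBasis ℝ E₁) _ z.1 hq.1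
  have hfP : ∀ z : B × F, ∀ q ∈ (extChartAt 𝓘(ℝ, E₁) z.1).target ×ˢ
      (extChartAt 𝓘(ℝ, E₂) z.2).target, (fC gF z q).PosDef := fun z q hq =>
    chartMetric_posDef 𝓘(ℝ, E₂) (finBasis ℝ E₂) _ z.2 hq.2
  have : Nonempty (B × F) := inferInstance
  refine no_neg_div (𝓘(ℝ, E₁).prod 𝓘(ℝ, E₂)) (M := B × F)
    (Z := fun z => Zfield (hC gB z) (fC gF z) (lC a z) (lC b z)) ?_ ?_ ?_
  · intro z q hq
    rw [htgt z] at hq
    have at_of : ∀ {φ : E₁ × E₂ → ℝ}, ContDiffOn ℝ ∞ φ ((extChartAt 𝓘(ℝ, E₁) z.1).target ×ˢ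
        (extChartAt 𝓘(ℝ, E₂) z.2).target) → ContDiffAt ℝ ∞ φ q :=
      fun hφ => hφ.contDiffAt ((hopen z).mem_nhds hq)
    exact (Zfield_contDiffAt (fun i j => at_of (hhC z i j)) (fun i j => at_of (hfC z i j))
      (at_of (hla z)) (at_of (hlb z)) (hhP z q hq) (hfP z q hq)).contDiffWithinAt
  · intro z z' q hq
    exact Z_law gB gF ha ha0 hb hb0 hq
  · intro z q hq
    have hp := hpos z q hq
    have hmetric : coeff g z =ᶠ[𝓝 q] blockMetric (hC gB z) (fC gF z) (lC a z) (lC b z) := by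
      filter_upwards [(isOpen_extChartAt_target z).mem_nhds hq] with p hp
      ext i j
      have h1 : coeff g z p i j = mform (𝓘(ℝ, E₁).prod 𝓘(ℝ, E₂)) g z p
        (finBasis ℝ (E₁ × E₂) i) (finBasis ℝ (E₁ × E₂) j) := rfl
      have h2 : ∀ v w : E₁, mform 𝓘(ℝ, E₁)
          (gB ((extChartAt 𝓘(ℝ, E₂) z.2).symm p.2)) z.1 p.1 v w =
          ∑ k, ∑ l, hC gB z p k l * ((finBasis ℝ E₁).repr v k * (finBasis ℝ E₁).repr w l) := by
        intro v w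
        conv_lhs => rw [← (finBasis ℝ E₁).sum_repr v, ← (finBasis ℝ E₁).sum_repr w, bilin_sum]
        apply Finset.sum_congr rfl
        intro k _
        apply Finset.sum_congr rfl
        intro l _
        rw [mul_comm]
        rfl
      have h3 : ∀ v w : E₂, mform 𝓘(ℝ, E₂)
          (gF ((extChartAt 𝓘(ℝ, E₁) z.1).symm p.1)) z.2 p.2 v w =
          ∑ k, ∑ l, fC gF z p k l * ((finBasis ℝ E₂).repr v k * (finBasis ℝ E₂).repr w l) := by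
        intro v w
        conv_lhs => rw [← (finBasis ℝ E₂).sum_repr v, ← (finBasis ℝ E₂).sum_repr w, bilin_sum]
        apply Finset.sum_congr rfl
        intro k _
        apply Finset.sum_congr rfl
        intro l _
        rw [mul_comm]
        rfl
      rw [h1, key z hp, h2, h3]
      unfold blockMetric lC
      rw [Real.exp_log (ha0 _), Real.exp_log (hb0 _)]
    rw [scalC_congr hmetric] at hp
    rw [htgt z] at hq
    refine chart_ineq hd₁ hd₂ (isOpen_extChartAt_target z.1) (isOpen_extChartAt_target z.2)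
      (hhC z) (hfC z) (hla z) (hlb z) (hhP z) (hfP z) ?_ ?_ hq ?_ ?_ hp
    · intro x hx y _ y' _
      exact SameVolume.eq (hvB _ _) z.1 hx
    · intro x _ x' _ y hy
      exact SameVolume.eq (hvF _ _) z.2 hy
    · exact hsB _ z.1 q.1 hq.1
    · exact hsF _ z.2 q.2 hq.2

end thm

end Pool.Agent.Lib.MP_df705a_gt.Twist
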